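import Mathlib
import Pool.Agent.H262.FK5

set_option autoImplicit false

/-!
No infinite-dimensional normed space linearly embeds into a Lipschitz free `p`-space, `0 < p < 1`.
-/

namespace Pool.Agent.Results.MP_4dc88f_an.NoBanachSubspace

open Pool.Agent.H262.FreeP

/-- Lipschitz free `p`-spaces in the sense of `IsFreePSpace` exist, so that `result` below is not
vacuous. -/
theorem exists_space (𝕜 : Type) [RCLike 𝕜] (p : ℝ) (hp : 0 < p) (hp1 : p < 1)
    (M : Type) [MetricSpace M] (o : M) :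
    ∃ (F : Type) (_ : AddCommGroup F) (_ : Module 𝕜 F) (N : F → ℝ) (δ : M → F),
      IsFreePSpace 𝕜 p M o F N δ :=
  Pool.Agent.H262.FP.exists_free hp hp1.le o

/-- The case of the metric space `c_0 = C₀(ℕ, ℝ)`. -/
theorem c0_case (p : ℝ) (hp : 0 < p) (hp1 : p < 1) (F : Type) [AddCommGroup F] [Module ℝ F]
    (N : F → ℝ) (δ : ZeroAtInftyContinuousMap ℕ ℝ → F)
    (hF : IsFreePSpace ℝ p (ZeroAtInftyContinuousMap ℕ ℝ) 0 F N δ)
    (X : Type) [NormedAddCommGroup X] [NormedSpace ℝ X] (T : X →ₗ[ℝ] F) (c C : ℝ) (hc : 0 < c)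
    (hT : ∀ x, c * ‖x‖ ≤ N (T x) ∧ N (T x) ≤ C * ‖x‖) : FiniteDimensional ℝ X :=
  Pool.Agent.H262.FP.no_normedK hp hp1 hF X T hc (fun x => (hT x).2) (fun x => (hT x).1)

/-- Let `0 < p < 1` and let `M` be any metric space (in particular `M = c_0`). Every normed space
that linearly embeds into the Lipschitz free `p`-space `F_p(M)` is finite-dimensional. -/
theorem result (𝕜 : Type) [RCLike 𝕜] (p : ℝ) (hp : 0 < p) (hp1 : p < 1)
    (M : Type) [MetricSpace M] (o : M) (F : Type) [AddCommGroup F] [Module 𝕜 F]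
    (N : F → ℝ) (δ : M → F) (hF : IsFreePSpace 𝕜 p M o F N δ)
    (X : Type) [NormedAddCommGroup X] [NormedSpace 𝕜 X] (T : X →ₗ[𝕜] F) (c C : ℝ) (hc : 0 < c)
    (hT : ∀ x, c * ‖x‖ ≤ N (T x) ∧ N (T x) ≤ C * ‖x‖) : FiniteDimensional 𝕜 X :=
  Pool.Agent.H262.FP.no_normedK hp hp1 hF X T hc (fun x => (hT x).2) (fun x => (hT x).1)

end Pool.Agent.Results.MP_4dc88f_an.NoBanachSubspace
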